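import Pool.Agent.Y727.PSP.Stm
import Pool.Agent.Helper112.MultLS

/-!
Project PSP (helper727), task BAD: few characters have a small `Lj z χ 0 σ`.
-/

set_option autoImplicit false

namespace Pool.Agent.Y122.PSP

open Finset Filter
open Pool.Agent.H262R3.Lk (Lj fz)
open Pool.Agent.H318R2.Cr (Rgh)

/-- the terms -/
noncomputable def g (z : ℕ) (σ : ℝ) {q : ℕ} (χ : DirichletCharacter ℂ q) (n : ℕ) : ℂ :=
  fz z χ n * (((Real.log n) ^ 0 / (n : ℝ) ^ (1 + σ) : ℝ) : ℂ)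

theorem g_norm (z : ℕ) (σ : ℝ) {q : ℕ} (χ : DirichletCharacter ℂ q) (n : ℕ) :
    ‖g z σ χ n‖ ≤ 1 / (n : ℝ) ^ (1 + σ) := by
  unfold g
  rw [norm_mul, pow_zero, Complex.norm_real, Real.norm_of_nonneg (by positivity)]
  have h : ‖fz z χ n‖ ≤ 1 := by
    unfold fz
    split_ifs
    · exact χ.norm_le_one _
    · simp
  calc _ ≤ 1 * (1 / (n : ℝ) ^ (1 + σ)) := mul_le_mul_of_nonneg_right h (by positivity)
    _ = _ := one_mul _

theorem g_hasSum (z : ℕ) {σ : ℝ} (hσ : 0 < σ) {q : ℕ} (χ : DirichletCharacter ℂ q) :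
    HasSum (g z σ χ) (Lj z χ 0 σ) := by
  have h : Summable (g z σ χ) := by
    refine Summable.of_norm_bounded (Real.summable_one_div_nat_rpow.mpr ?_) (g_norm z σ χ)
    linarith
  exact h.hasSum

theorem g_small {z : ℕ} (hz : 2 ≤ z) (σ : ℝ) {q : ℕ} (χ : DirichletCharacter ℂ q) {n : ℕ}
    (hn : n ≤ z) (h1 : n ≠ 1) : g z σ χ n = 0 := by
  have h : ¬ Rgh z n := by
    intro h
    rcases Nat.eq_zero_or_pos n with h0 | h0
    · subst h0
      exact h 2 Nat.prime_two hz (dvd_zero 2)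
    · obtain ⟨p, hp, hpn⟩ := Nat.exists_prime_and_dvd h1
      exact h p hp ((Nat.le_of_dvd h0 hpn).trans hn) hpn
  unfold g fz
  rw [if_neg h, zero_mul]

theorem g_one {z : ℕ} (σ : ℝ) {q : ℕ} (χ : DirichletCharacter ℂ q) : g z σ χ 1 = 1 := by
  have h : Rgh z 1 := by
    intro p hp _ hd
    exact hp.one_lt.ne' (Nat.dvd_one.mp hd)
  unfold g fz
  rw [if_pos h]
  simp

theorem sum_range_g {z : ℕ} (hz : 2 ≤ z) (σ : ℝ) {q : ℕ} (χ : DirichletCharacter ℂ q) {N : ℕ}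
    (hN : z ≤ N) : ∑ n ∈ range (N + 1), g z σ χ n = 1 + ∑ n ∈ Ioc z N, g z σ χ n := by
  have h1 : range (N + 1) = range (z + 1) ∪ Ioc z N := by
    ext n; simp only [mem_union, mem_range, mem_Ioc]; omega
  have h2 : Disjoint (range (z + 1)) (Ioc z N) := by
    rw [Finset.disjoint_left]; intro n; simp only [mem_range, mem_Ioc]; omega
  rw [h1, sum_union h2]
  congr 1
  rw [sum_eq_single 1]
  · exact g_one σ χ
  · intro n hn h; exact g_small hz σ χ (by rw [mem_range] at hn; omega) h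
  · intro h; exfalso; apply h; rw [mem_range]; omega

/-- the dyadic blocks -/
noncomputable def Bl (z : ℕ) (σ : ℝ) {q : ℕ} (χ : DirichletCharacter ℂ q) (j : ℕ) : ℂ :=
  ∑ n ∈ Ioc (z * 2 ^ j) (z * 2 ^ (j + 1)), g z σ χ n

theorem sum_Bl (z : ℕ) (σ : ℝ) {q : ℕ} (χ : DirichletCharacter ℂ q) (J : ℕ) :
    ∑ n ∈ Ioc z (z * 2 ^ J), g z σ χ n = ∑ j ∈ range J, Bl z σ χ j := by
  induction J with
  | zero => simp
  | succ J ih =>
    rw [sum_range_succ, ← ih, Bl]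
    have h1 : z ≤ z * 2 ^ J := Nat.le_mul_of_pos_right _ (by positivity)
    have h2 : z * 2 ^ J ≤ z * 2 ^ (J + 1) := Nat.mul_le_mul_left _ (Nat.pow_le_pow_right (by norm_num) (by omega))
    exact (Finset.sum_Ioc_consecutive _ h1 h2).symm

/-- the large sieve for one block -/
theorem block {z Q : ℕ} (hz : 2 ≤ z) (hQ : Q ^ 4 ≤ z) {σ : ℝ} (hσ : 0 < σ) (j : ℕ) (B : Finset ℕ)
    (hB : ∀ f ∈ B, 1 ≤ f ∧ f ≤ Q) (χ : ∀ f : ℕ, DirichletCharacter ℂ f)
    (hχ : ∀ f ∈ B, (χ f).IsPrimitive) :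
    ∑ f ∈ B, ‖Bl z σ (χ f) j‖ ^ 2 ≤ 18 * (((2 : ℝ) ^ (-σ)) ^ j) ^ 2 := by
  classical
  set N := z * 2 ^ j with hN
  have hN2 : z * 2 ^ (j + 1) = 2 * N := by rw [hN, pow_succ]; ring
  have hNpos : 0 < N := by positivity
  set α : ℕ → ℂ := fun n => if N < n ∧ Rgh z n then ((1 / (n : ℝ) ^ (1 + σ) : ℝ) : ℂ) else 0 with hα
  have hBl : ∀ {q : ℕ} (ψ : DirichletCharacter ℂ q), Bl z σ ψ j =
      ∑ n ∈ Icc 1 (2 * N), α n * ψ (n : ZMod q) := by
    intro q ψ
    unfold Bl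
    rw [← hN, hN2]
    have h1 : Ioc N (2 * N) ⊆ Icc 1 (2 * N) := by
      intro n; simp only [mem_Ioc, mem_Icc]; omega
    rw [← sum_subset h1]
    · refine sum_congr rfl fun n hn => ?_
      rw [mem_Ioc] at hn
      unfold g fz
      rw [hα]
      simp only [hn.1, true_and]
      split_ifs
      · simp [mul_comm]
      · simp
    · intro n hn hn'
      rw [hα]
      simp only
      rw [if_neg, zero_mul]
      intro h
      apply hn'
      rw [mem_Icc] at hn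
      rw [mem_Ioc]
      exact ⟨h.1, hn.2⟩
  have hLS := Pool.Agent.Helper112.mult_large_sieve (2 * N) Q α
  have h1 : ∑ f ∈ B, ‖Bl z σ (χ f) j‖ ^ 2 ≤ ∑ f ∈ Icc 1 Q, ((f : ℝ) / (Nat.totient f : ℝ)) *
      ∑ χ ∈ (univ : Finset (DirichletCharacter ℂ f)).filter (fun χ => χ.IsPrimitive),
        ‖∑ n ∈ Icc 1 (2 * N), α n * χ (n : ZMod f)‖ ^ 2 := by
    have hsub : B ⊆ Icc 1 Q := fun f hf => by rw [mem_Icc]; exact hB f hf
    refine le_trans ?_ (sum_le_sum_of_subset_of_nonneg hsub fun f _ _ => by positivity)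
    refine sum_le_sum fun f hf => ?_
    have hf1 := (hB f hf).1
    have : NeZero f := ⟨by omega⟩
    have h2 : (0 : ℝ) < (Nat.totient f : ℝ) := by
      exact_mod_cast Nat.totient_pos.2 hf1
    have h3 : 1 ≤ (f : ℝ) / (Nat.totient f : ℝ) := by
      rw [one_le_div h2]; exact_mod_cast Nat.totient_le f
    have h4 : ‖Bl z σ (χ f) j‖ ^ 2 ≤
      ∑ χ ∈ (univ : Finset (DirichletCharacter ℂ f)).filter (fun χ => χ.IsPrimitive),
        ‖∑ n ∈ Icc 1 (2 * N), α n * χ (n : ZMod f)‖ ^ 2 := by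
      rw [hBl]
      exact single_le_sum (f := fun χ : DirichletCharacter ℂ f =>
        ‖∑ n ∈ Icc 1 (2 * N), α n * χ (n : ZMod f)‖ ^ 2) (fun _ _ => by positivity)
        (mem_filter.mpr ⟨mem_univ _, hχ f hf⟩)
    exact h4.trans (le_mul_of_one_le_left (sum_nonneg fun χ _ => sq_nonneg _) h3)
  have h2 : ∑ n ∈ Icc 1 (2 * N), ‖α n‖ ^ 2 ≤ N * (1 / (N : ℝ) ^ (1 + σ)) ^ 2 := by
    have h3 : ∀ n ∈ Icc 1 (2 * N), ‖α n‖ ^ 2 ≤ if N < n then (1 / (N : ℝ) ^ (1 + σ)) ^ 2 else 0 := by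
      intro n hn
      rw [hα]
      simp only
      split_ifs with h4 h5 h6
      · rw [Complex.norm_real, Real.norm_of_nonneg (by positivity)]
        refine pow_le_pow_left₀ (by positivity) ?_ 2
        refine one_div_le_one_div_of_le (by positivity) ?_
        exact Real.rpow_le_rpow (by positivity) (by exact_mod_cast h4.1.le) (by linarith)
      · exact absurd h4.1 h5
      · rw [norm_zero, zero_pow two_ne_zero]; positivity
      · simp
    refine (sum_le_sum h3).trans ?_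
    rw [← sum_filter]
    have h4 : (Icc 1 (2 * N)).filter (fun n => N < n) = Ioc N (2 * N) := by
      ext n; simp only [mem_filter, mem_Icc, mem_Ioc]; omega
    rw [h4, sum_const, Nat.card_Ioc, nsmul_eq_mul]
    have h5 : 2 * N - N = N := by omega
    rw [h5]
  have hQN : (Q : ℝ) ^ 2 ≤ N := by
    have h3 : Q ^ 2 ≤ Q ^ 4 := by
      rcases Nat.eq_zero_or_pos Q with h | h
      · subst h; simp
      · exact Nat.pow_le_pow_right h (by norm_num)
    have h4 : z ≤ N := by rw [hN]; exact Nat.le_mul_of_pos_right _ (by positivity)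
    exact_mod_cast h3.trans (hQ.trans h4)
  have hNR : (0 : ℝ) < N := by exact_mod_cast hNpos
  have h5 : (N : ℝ) * (N * (1 / (N : ℝ) ^ (1 + σ)) ^ 2) ≤ (((2 : ℝ) ^ (-σ)) ^ j) ^ 2 := by
    have h6 : (N : ℝ) * (1 / (N : ℝ) ^ (1 + σ)) = (N : ℝ) ^ (-σ) := by
      rw [Real.rpow_add hNR, Real.rpow_one, Real.rpow_neg hNR.le]; field_simp
    have h7 : (N : ℝ) ^ (-σ) ≤ ((2 : ℝ) ^ (-σ)) ^ j := by
      rw [← Real.rpow_natCast, ← Real.rpow_mul (by norm_num), mul_comm (-σ) (j : ℝ),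
        Real.rpow_mul (by norm_num), Real.rpow_natCast]
      refine Real.rpow_le_rpow_of_nonpos (by positivity) ?_ (by linarith)
      rw [hN]; push_cast
      have : (1 : ℝ) ≤ z := by exact_mod_cast (by omega : 1 ≤ z)
      nlinarith [show (0 : ℝ) < 2 ^ j by positivity]
    calc _ = ((N : ℝ) * (1 / (N : ℝ) ^ (1 + σ))) ^ 2 := by ring
      _ = ((N : ℝ) ^ (-σ)) ^ 2 := by rw [h6]
      _ ≤ _ := pow_le_pow_left₀ (by positivity) h7 2
  calc _ ≤ 6 * (((2 * N : ℕ) : ℝ) + (Q : ℝ) ^ 2) * ∑ n ∈ Icc 1 (2 * N), ‖α n‖ ^ 2 := h1.trans hLS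
    _ ≤ 6 * (3 * N) * (N * (1 / (N : ℝ) ^ (1 + σ)) ^ 2) := by
        refine mul_le_mul ?_ h2 (sum_nonneg fun _ _ => by positivity) (by positivity)
        push_cast; linarith
    _ = 18 * ((N : ℝ) * (N * (1 / (N : ℝ) ^ (1 + σ)) ^ 2)) := by ring
    _ ≤ _ := by linarith

theorem geo {σ : ℝ} (hσ : 0 < σ) (hσ1 : σ ≤ 1) (J : ℕ) :
    ∑ j ∈ range J, ((2 : ℝ) ^ (-σ)) ^ j ≤ 2 / σ := by
  have h1 : (2 : ℝ) ^ (-σ) ≤ 1 - σ / 2 := by
    -- convexity of the exponential function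
    have hc := convexOn_exp.2 (x := -Real.log 2) (Set.mem_univ _) (y := 0) (Set.mem_univ _)
      hσ.le (by linarith : 0 ≤ 1 - σ) (by ring)
    simp only [smul_eq_mul, mul_zero, add_zero, Real.exp_zero, mul_one] at hc
    rw [Real.exp_neg, Real.exp_log (by norm_num : (0 : ℝ) < 2)] at hc
    have h2 : (2 : ℝ) ^ (-σ) = Real.exp (σ * -Real.log 2) := by
      rw [Real.rpow_def_of_pos (by norm_num)]; congr 1; ring
    rw [h2]; linarith
  have h0 : (0 : ℝ) < (2 : ℝ) ^ (-σ) := by positivity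
  have h2 : (2 : ℝ) ^ (-σ) < 1 := by linarith
  have h3 := (hasSum_geometric_of_lt_one h0.le h2)
  refine (sum_le_hasSum (range J) (fun _ _ => by positivity) h3).trans ?_
  rw [inv_eq_one_div]
  rw [div_le_div_iff₀ (by linarith) hσ]
  linarith

theorem bad : Pool.Agent.Y727.PSP.S_BAD := by
  classical
  refine ⟨5, ⌈Real.exp 288⌉₊, fun z hz σ hσ hσ1 Q hQ => ?_⟩
  have hze : Real.exp 288 ≤ z := (Nat.le_ceil _).trans (by exact_mod_cast hz)
  have hlog : 288 ≤ Real.log z := by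
    rw [Real.le_log_iff_exp_le (lt_of_lt_of_le (Real.exp_pos _) hze)]; exact hze
  have hz2 : 2 ≤ z := by
    have h1 : (2 : ℝ) ≤ z := by
      have := Real.add_one_le_exp (288 : ℝ); linarith
    exact_mod_cast h1
  have hlog0 : 0 < Real.log z := by linarith
  have hσ0 : 0 < σ := lt_of_lt_of_le (by positivity) hσ
  set B := (Icc 2 Q).filter (fun f => ∃ χ : DirichletCharacter ℂ f,
    χ.IsPrimitive ∧ ‖Lj z χ 0 σ‖ < 1 / 2) with hB
  have hBf : ∀ f ∈ B, 1 ≤ f ∧ f ≤ Q := by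
    intro f hf
    rw [hB, mem_filter, mem_Icc] at hf
    omega
  have hex : ∀ f : ℕ, ∃ χ : DirichletCharacter ℂ f, f ∈ B →
      χ.IsPrimitive ∧ ‖Lj z χ 0 σ‖ < 1 / 2 := by
    intro f
    by_cases hf : f ∈ B
    · obtain ⟨χ, h⟩ := (mem_filter.mp hf).2
      exact ⟨χ, fun _ => h⟩
    · exact ⟨1, fun h => absurd h hf⟩
  choose χ hχ using hex
  -- the partial sums
  have hlim : ∀ᶠ J : ℕ in atTop, ∀ f ∈ B, 1 / 2 < ‖∑ n ∈ Ioc z (z * 2 ^ J), g z σ (χ f) n‖ := by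
    rw [Filter.eventually_all_finset]
    intro f hf
    have h1 := (g_hasSum z hσ0 (χ f)).tendsto_sum_nat
    have h2 : Tendsto (fun J : ℕ => z * 2 ^ J + 1) atTop atTop := by
      refine tendsto_atTop_mono (fun J => ?_) tendsto_id
      have : J < 2 ^ J := Nat.lt_two_pow_self
      simp only [id]
      nlinarith
    have h3 := h1.comp h2
    have h4 : Tendsto (fun J : ℕ => ‖∑ n ∈ Ioc z (z * 2 ^ J), g z σ (χ f) n‖) atTop
        (nhds ‖Lj z (χ f) 0 σ - 1‖) := by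
      refine ((h3.sub_const 1).norm).congr fun J => ?_
      simp only [Function.comp]
      rw [sum_range_g hz2 σ (χ f) (Nat.le_mul_of_pos_right _ (by positivity))]
      congr 1; ring
    refine h4.eventually_const_lt ?_
    have h5 := norm_sub_norm_le (1 : ℂ) (Lj z (χ f) 0 σ)
    rw [norm_one, norm_sub_rev] at h5
    have h6 := (hχ f hf).2
    linarith
  obtain ⟨J, hJ⟩ := hlim.exists
  set r : ℝ := (2 : ℝ) ^ (-σ) with hr
  have hr0 : 0 < r := by positivity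
  have h1 : ∀ j, ∑ f ∈ B, ‖Bl z σ (χ f) j‖ ≤ Real.sqrt (B.card * 18) * r ^ j := by
    intro j
    have h2 := block hz2 hQ hσ0 j B hBf χ (fun f hf => (hχ f hf).1)
    have h3 := sq_sum_le_card_mul_sum_sq (s := B) (f := fun f => ‖Bl z σ (χ f) j‖)
    have h4 : (∑ f ∈ B, ‖Bl z σ (χ f) j‖) ^ 2 ≤ (B.card * 18) * (r ^ j) ^ 2 := by
      calc _ ≤ (B.card : ℝ) * ∑ f ∈ B, ‖Bl z σ (χ f) j‖ ^ 2 := h3
        _ ≤ (B.card : ℝ) * (18 * (r ^ j) ^ 2) := mul_le_mul_of_nonneg_left h2 (by positivity)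
        _ = _ := by ring
    have h5 := Real.sqrt_le_sqrt h4
    rw [Real.sqrt_sq (sum_nonneg fun _ _ => norm_nonneg _), Real.sqrt_mul (by positivity),
      Real.sqrt_sq (by positivity)] at h5
    exact h5
  have h2 : (B.card : ℝ) * (1 / 2) ≤ Real.sqrt (B.card * 18) * (2 / σ) := by
    calc (B.card : ℝ) * (1 / 2) = ∑ f ∈ B, (1 / 2 : ℝ) := by rw [sum_const, nsmul_eq_mul]
      _ ≤ ∑ f ∈ B, ∑ j ∈ range J, ‖Bl z σ (χ f) j‖ := by
          refine sum_le_sum fun f hf => ?_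
          have h3 := hJ f hf
          rw [sum_Bl] at h3
          exact h3.le.trans (norm_sum_le _ _)
      _ = ∑ j ∈ range J, ∑ f ∈ B, ‖Bl z σ (χ f) j‖ := sum_comm
      _ ≤ ∑ j ∈ range J, Real.sqrt (B.card * 18) * r ^ j := sum_le_sum fun j _ => h1 j
      _ = Real.sqrt (B.card * 18) * ∑ j ∈ range J, r ^ j := by rw [mul_sum]
      _ ≤ _ := mul_le_mul_of_nonneg_left (geo hσ0 hσ1 J) (Real.sqrt_nonneg _)
  have h3 : (B.card : ℝ) ≤ 288 / σ ^ 2 := by
    rcases (Nat.cast_nonneg (α := ℝ) B.card).eq_or_lt with h | h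
    · rw [← h]; positivity
    · have h4 := pow_le_pow_left₀ (by positivity) h2 2
      rw [mul_pow, mul_pow, Real.sq_sqrt (by positivity)] at h4
      have h5 : (B.card : ℝ) * ((B.card : ℝ) / 4) ≤ (B.card : ℝ) * (18 * (4 / σ ^ 2)) := by
        calc _ = (B.card : ℝ) ^ 2 * (1 / 2) ^ 2 := by ring
          _ ≤ _ := h4
          _ = _ := by ring
      have h6 := le_of_mul_le_mul_left h5 h
      have h7 : 18 * (4 / σ ^ 2) * 4 = 288 / σ ^ 2 := by ring
      linarith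
  have h4 : 1 / σ ^ 2 ≤ Real.log z ^ 4 := by
    rw [div_le_iff₀ (by positivity)]
    have h5 : 1 ≤ Real.log z ^ 2 * σ := by
      rw [div_le_iff₀ (by positivity)] at hσ
      linarith
    have h6 := one_le_pow₀ h5 (n := 2)
    calc (1 : ℝ) ≤ (Real.log z ^ 2 * σ) ^ 2 := h6
      _ = _ := by ring
  calc (B.card : ℝ) ≤ 288 / σ ^ 2 := h3
    _ = 288 * (1 / σ ^ 2) := by ring
    _ ≤ Real.log z * Real.log z ^ 4 := mul_le_mul hlog h4 (by positivity) (by positivity)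
    _ = Real.log z ^ 5 := by ring

end Pool.Agent.Y122.PSP
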